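import Pool.Agent.Q56.GO.Aff
import Pool.Agent.Q187.FM.Factor

/-!
# Sheaves of geometric origin in characteristic `p`: the geometric generic fibre of a fibration
-/

set_option autoImplicit false

namespace Pool.Agent.Q159.GF

open Pool.Agent.Q187.FM Pool.Agent.Q56.GO

section

variable {Λ G H : Type} [Field Λ] [Group G] [Group H]

/-- The restrictions of `T` and of `R` to the subgroup `K` have a nonzero homomorphism `T → R`. -/
def MapsOn (K : Subgroup G) (T R : Rp Λ G) : Prop :=
  ∃ u : T.V →ₗ[Λ] R.V, u ≠ 0 ∧ ∀ n ∈ K, ∀ t, u (T.r n t) = R.r n (u t)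

/-- A subgroup of finite index of `K` stabilizes a line in `S`. -/
def StableLine (K : Subgroup G) (S : Rp Λ G) : Prop :=
  ∃ N : Subgroup G, N ≤ K ∧ N.relIndex K ≠ 0 ∧
    ∃ v : S.V, v ≠ 0 ∧ ∀ n ∈ N, ∃ c : Λ, S.r n v = c • v

/-- `K` has a commutative subgroup of finite index. -/
def AlmostCommutative (K : Subgroup G) : Prop :=
  ∃ N : Subgroup G, N ≤ K ∧ N.relIndex K ≠ 0 ∧ ∀ m ∈ N, ∀ n ∈ N, m * n = n * m

theorem pull_map {b : H →* G} {S : Rp Λ G} (S₁ : Rp Λ H) (w : S.V →ₗ[Λ] S₁.V)
    (hw : ∀ h v, w (S.r (b h) v) = S₁.r h (w v)) (hw0 : w ≠ 0) (hS : S.Irreducible) :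
    SubInduced b S₁ S := by
  let u : S.V →ₗ[Λ] (G → S₁.V) := LinearMap.pi fun g => w ∘ₗ S.r g
  have hu : ∀ t g, u t g = w (S.r g t) := fun _ _ => rfl
  refine ⟨u, ?_, fun t h g => ?_, fun t g x => ?_⟩
  · have hst : S.Stable (LinearMap.ker u) := by
      intro g v hv
      rw [LinearMap.mem_ker] at hv ⊢
      funext x
      rw [hu, ← Module.End.mul_apply, ← map_mul, ← hu, hv]
      rfl
    rcases hS.2 _ hst with h0 | h0
    · exact LinearMap.ker_eq_bot.1 h0
    · exfalso
      apply hw0
      ext v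
      have h1 : v ∈ LinearMap.ker u := h0 ▸ Submodule.mem_top
      rw [LinearMap.mem_ker] at h1
      have h2 := congrFun h1 1
      rw [hu, map_one, Module.End.one_apply] at h2
      exact h2
  · rw [hu, hu, map_mul, Module.End.mul_apply, hw]
  · rw [hu, hu, map_mul, Module.End.mul_apply]

theorem projection_map {S : Rp Λ H} {A B : Submodule Λ S.V} (hA : S.Stable A) (hB : S.Stable B)
    (hAB : IsCompl A B) (g : H) (v : S.V) :
    A.projectionOnto B hAB (S.r g v) = (S.sub A hA).r g (A.projectionOnto B hAB v) := by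
  have hv : v ∈ A ⊔ B := hAB.codisjoint.eq_top ▸ Submodule.mem_top
  obtain ⟨a, ha, c, hc, rfl⟩ := Submodule.mem_sup.1 hv
  have e1 : A.projectionOnto B hAB c = 0 := (Submodule.projectionOnto_apply_eq_zero_iff hAB).2 hc
  have e2 : A.projectionOnto B hAB (S.r g c) = 0 :=
    (Submodule.projectionOnto_apply_eq_zero_iff hAB).2 (hB g c hc)
  have e3 : A.projectionOnto B hAB a = (⟨a, ha⟩ : A) :=
    Submodule.projectionOnto_apply_left hAB ⟨a, ha⟩
  have e4 : A.projectionOnto B hAB (S.r g a) = (⟨S.r g a, hA g a ha⟩ : A) :=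
    Submodule.projectionOnto_apply_left hAB ⟨_, hA g a ha⟩
  rw [map_add, map_add, map_add, e1, e2, e3, e4, add_zero, add_zero]
  rfl

theorem embeds_sub {S S₁ : Rp Λ H} {A : Submodule Λ S.V} (hA : S.Stable A)
    (h : S₁.EmbedsIn (S.sub A hA)) : S₁.EmbedsIn S := by
  obtain ⟨u, hu, hu'⟩ := h
  let u' : S₁.V →ₗ[Λ] A := u
  exact ⟨A.subtype ∘ₗ u', (Submodule.subtype_injective A).comp hu,
    fun g v => congrArg A.subtype (hu' g v)⟩

/-- A nonzero map to a semisimple representation has a nonzero composition with the projection to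
an irreducible direct summand. -/
theorem exists_projection {E : Type} [AddCommGroup E] [Module Λ E] (S : Rp Λ H)
    (hS : S.Semisimple) (u : E →ₗ[Λ] S.V) (hu : u ≠ 0) :
    ∃ (S₁ : Rp Λ H) (p : S.V →ₗ[Λ] S₁.V), S₁.Irreducible ∧ S₁.EmbedsIn S ∧
      (∀ h v, p (S.r h v) = S₁.r h (p v)) ∧ p ∘ₗ u ≠ 0 := by
  refine Rp.induction (P := fun _ => True) (Q := fun S => ∀ u : E →ₗ[Λ] S.V, u ≠ 0 →
    ∃ (S₁ : Rp Λ H) (p : S.V →ₗ[Λ] S₁.V), S₁.Irreducible ∧ S₁.EmbedsIn S ∧
      (∀ h v, p (S.r h v) = S₁.r h (p v)) ∧ p ∘ₗ u ≠ 0)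
    (fun _ _ _ _ _ _ _ => trivial) ?_ ?_ ?_ S hS trivial u hu
  · intro S h0 _ u hu
    exact absurd (LinearMap.ext fun x => h0 _) hu
  · intro S A B hA hB hAB h1 h2 u hu
    rcases eq_or_ne (A.projectionOnto B hAB ∘ₗ u) 0 with h | h
    · have h' : B.projectionOnto A hAB.symm ∘ₗ u ≠ 0 := by
        intro h'
        apply hu
        ext x
        have e1 : u x ∈ B :=
          (Submodule.projectionOnto_apply_eq_zero_iff hAB).1 (LinearMap.congr_fun h x)
        have e2 : u x ∈ A :=
          (Submodule.projectionOnto_apply_eq_zero_iff hAB.symm).1 (LinearMap.congr_fun h' x)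
        exact Submodule.disjoint_def.1 hAB.disjoint _ e2 e1
      obtain ⟨S₁, p, k1, k2, k3, k4⟩ := h2 (B.projectionOnto A hAB.symm ∘ₗ u) h'
      exact ⟨S₁, p ∘ₗ B.projectionOnto A hAB.symm, k1, embeds_sub hB k2,
        fun g v => (congrArg p (projection_map hB hA hAB.symm g v)).trans (k3 g _), k4⟩
    · obtain ⟨S₁, p, k1, k2, k3, k4⟩ := h1 (A.projectionOnto B hAB ∘ₗ u) h
      exact ⟨S₁, p ∘ₗ A.projectionOnto B hAB, k1, embeds_sub hA k2,
        fun g v => (congrArg p (projection_map hA hB hAB g v)).trans (k3 g _), k4⟩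
  · intro S hS _ u hu
    exact ⟨S, LinearMap.id, hS, ⟨LinearMap.id, fun _ _ h => h, fun _ _ => rfl⟩, fun _ _ => rfl,
      by rwa [LinearMap.id_comp]⟩

/-- A commutative group of automorphisms has a common eigenvector. -/
theorem exists_line [IsAlgClosed Λ] (S : Rp Λ G) (hS : ∃ v : S.V, v ≠ 0) (N : Subgroup G)
    (hN : ∀ m ∈ N, ∀ n ∈ N, m * n = n * m) :
    ∃ v : S.V, v ≠ 0 ∧ ∀ n ∈ N, ∃ c : Λ, S.r n v = c • v := by
  obtain ⟨v₀, hv₀⟩ := hS
  let r : Representation Λ N S.V := S.r.comp N.subtype
  obtain ⟨W, hW, -, hW0, hmin⟩ := exists_minimal r ⊤ (fun _ _ _ => trivial) (fun h => hv₀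
    ((Submodule.mem_bot Λ).1 (h ▸ Submodule.mem_top)))
  obtain ⟨v, hv, hv0⟩ := Submodule.exists_mem_ne_zero_of_ne_bot hW0
  refine ⟨v, hv0, fun n hn => ?_⟩
  have : Nontrivial W := ⟨⟨v, hv⟩, 0, fun h => hv0 (congrArg Subtype.val h)⟩
  obtain ⟨c, hc⟩ := Module.End.exists_eigenvalue ((r ⟨n, hn⟩).restrict (hW ⟨n, hn⟩))
  obtain ⟨w, hw⟩ := hc.exists_hasEigenvector
  have hw1 : S.r n w = c • (w : S.V) := congrArg Subtype.val hw.apply_eq_smul
  let E : Submodule Λ S.V := W ⊓ LinearMap.ker (S.r n - c • LinearMap.id)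
  have hE : ∀ x, x ∈ E ↔ x ∈ W ∧ S.r n x = c • x := by
    intro x
    rw [Submodule.mem_inf, LinearMap.mem_ker, LinearMap.sub_apply, sub_eq_zero]
    rfl
  have hst : ∀ m, ∀ x ∈ E, r m x ∈ E := by
    intro m x hx
    rw [hE] at hx ⊢
    refine ⟨hW m x hx.1, ?_⟩
    change S.r n (S.r m x) = c • S.r m x
    rw [← Module.End.mul_apply, ← map_mul, hN n hn m m.2, map_mul, Module.End.mul_apply, hx.2,
      map_smul]
  rcases hmin E hst inf_le_left with h | h
  · exfalso
    apply hw.2
    have h1 : (w : S.V) ∈ E := (hE _).2 ⟨w.2, hw1⟩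
    rw [h, Submodule.mem_bot] at h1
    exact Subtype.ext h1
  · exact ⟨c, ((hE v).1 (h ▸ hv)).2⟩

end

/-- The data `Data` with fibrations. -/
structure FibData (Λ : Type) [Field Λ] extends Data Λ where
  /-- the homomorphism is induced by a fibration `f : X → B`: a smooth surjective morphism with
  geometrically connected fibres. Its kernel is the image of the fundamental group of the geometric
  generic fibre `X_η` -/
  con : ∀ X B, (Pi X →* Pi B) → Prop
  /-- the restriction of the sheaf to the geometric generic fibre `X_η` of the fibration has an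
  irreducible subquotient which is isomorphic to a subquotient of the cohomology of a variety over
  the function field of `X_η` -/
  meets : ∀ X B, (Pi X →* Pi B) → Rp Λ (Pi X) → Prop
  /-- for `r ≤ n`, the homomorphism induced by the projection `A^n → A^r`,
  `(t_1, …, t_n) ↦ (t_1, …, t_r)`; the geometric generic fibre is the affine space of dimension
  `n - r` over an algebraic closure of `F_p(t_1, …, t_r)` -/
  proj : ∀ n r, Pi (affine n) →* Pi (affine r)

variable {Λ : Type} [Field Λ]

namespace FibData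

variable (D : FibData Λ)

/-- `S` is an irreducible lisse sheaf on `X` with determinant of finite order. -/
def Sheaf (X : D.Var) (S : Rp Λ (D.Pi X)) : Prop := D.lisse X S ∧ S.Irreducible ∧ FiniteDet S

/-- Plain sheaves are stable under subsheaves, `Hom` and restriction to a finite etale covering; the
restriction of an irreducible sheaf to a finite etale covering is semisimple. -/
structure PlainSheaves : Prop where
  plain_sub : ∀ X (S T : Rp Λ (D.Pi X)), S.EmbedsIn T → D.plain X T → D.plain X S
  plain_hom : ∀ X (S T : Rp Λ (D.Pi X)), D.plain X S → D.plain X T → D.plain X (S.hom T)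
  plain_pull : ∀ U X b, D.fet U X b → ∀ S, D.plain X S → D.plain U (S.pull b)
  semisimple : ∀ U X b, D.fet U X b → ∀ S : Rp Λ (D.Pi X), S.Irreducible → (S.pull b).Semisimple

/-- Sheaves which occur in cohomology are stable under tensor products (Kuenneth), quotients and
subsheaves of direct images under finite etale morphisms. -/
structure Cohomology : Prop where
  tensor : ∀ X (S T : Rp Λ (D.Pi X)), D.occurs X S → D.occurs X T → D.occurs X (S.tensor T)
  quot : ∀ X (S T : Rp Λ (D.Pi X)), S.QuotientOf T → D.occurs X T → D.occurs X S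
  direct : ∀ U X b, D.fet U X b → ∀ S T, D.occurs U S → SubInduced b S T → D.occurs X T

/-- The facts `PlainSheaves` and `Cohomology`. -/
structure Sheaves : Prop extends D.PlainSheaves, D.Cohomology

/-- Fibrations `f : X → B`: the fundamental group of `X` maps onto that of `B`; a sheaf on `B` is
plain if its pull-back is plain (every closed point of `B` is the image of one of `X`); pull-backs
occur in cohomology (base change). The projections of affine spaces are fibrations. -/
structure FibrationsPi : Prop where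
  surjective : ∀ X B f, D.con X B f → Function.Surjective f
  plain : ∀ X B f, D.con X B f → ∀ S, D.plain X (S.pull f) → D.plain B S
  occurs : ∀ X B f, D.con X B f → ∀ S, D.occurs B S → D.occurs X (S.pull f)
  projection : ∀ n r, r ≤ n → D.con (D.affine n) (D.affine r) (D.proj n r)
  dim_affine : ∀ n, D.dim (D.affine n) = n

/-- The geometric generic fibre `X_η`: a sheaf which occurs in cohomology does so on `X_η`; if a
subgroup of finite index of `π_1(X_η)` stabilizes a line in `S`, then it acts on it through a finite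
group (class field theory), so `S` contains a representation of `π_1(X_η)` of finite image, which
occurs in the cohomology of a finite covering. -/
structure GenericFibre : Prop where
  meets : ∀ X B f, D.con X B f → ∀ S, D.Sheaf X S → D.occurs X S → D.meets X B f S
  small : ∀ X B f, D.con X B f → ∀ S, D.Sheaf X S → StableLine f.ker S → D.meets X B f S

/-- The facts `FibrationsPi` and `GenericFibre`. -/
structure Fibrations : Prop extends D.FibrationsPi, D.GenericFibre

/-- The sheaf `R` on `U` has a nonzero homomorphism from a plain sheaf which occurs in cohomology, on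
the geometric generic fibre of a fibration `f : U → B` with `dim B = d`. -/
def Good (d : ℕ) (U : D.Var) (R : Rp Λ (D.Pi U)) : Prop :=
  ∃ (B : D.Var) (f : D.Pi U →* D.Pi B) (T : Rp Λ (D.Pi U)), D.con U B f ∧ D.dim B = d ∧
    D.plain U T ∧ D.occurs U T ∧ MapsOn f.ker T R

/-- Spreading out. Let `S` be an irreducible lisse sheaf on `X` with determinant of finite order,
and let an irreducible subquotient of its restriction to `X_η` be a subquotient of the cohomology of
a variety `Y` over the function field of `X_η`. Then `Y` is defined over the function field of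
`X ×_B B'`, `B'` finite etale over an open part of `B` (and the Frobenius, if the extension is not
separable). So there are a nonempty open subscheme `X'` of `X`, a finite etale `b : U → X'`, a
fibration `f' : U → B'` with `dim B' = dim B` and a plain sheaf `T` on `U` which occurs in cohomology
(a twist of a constituent of the sheaf given by `Y`), with a nonzero homomorphism from `T` to the
restriction of `S`, both restricted to the kernel of `f'`. -/
def Spreading : Prop :=
  ∀ X B f, D.con X B f → ∀ S, D.Sheaf X S → D.meets X B f S →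
    ∃ (X' U : D.Var) (a : D.Pi X' →* D.Pi X) (b : D.Pi U →* D.Pi X'), D.opn X' X a ∧
      D.fet U X' b ∧ D.Good (D.dim B) U ((S.pull a).pull b)

/-- Lafforgue: Q1 for curves. (Dimension zero: elementary.) -/
def Lafforgue : Prop := ∀ X, D.dim X ≤ 1 → D.Question X

/-- Every irreducible lisse sheaf on `A^n` over the prime field with determinant of finite order has
the following property: its restriction to the affine space of dimension `n - r` over the algebraic
closure of `F_p(t_1, …, t_r)` has an irreducible subquotient of geometric origin. -/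
def Meets (n r : ℕ) : Prop :=
  ∀ S, D.Sheaf (D.affine n) S → D.meets (D.affine n) (D.affine r) (D.proj n r) S

/-- Q1 in dimension `n`. -/
def InDim (n : ℕ) : Prop := ∀ X, D.dim X = n → D.Question X

/-- The dimension is at most one (Lafforgue), or Q1 holds in dimension `n`. -/
def Known (n : ℕ) : Prop := n ≤ 1 ∨ D.InDim n

/-- The criterion for sheaves on `X`, with a fibration `f : X → B`. -/
def Criterion : Prop :=
  ∀ X B f, D.con X B f → D.Known (D.dim B) → ∀ S, D.Sheaf X S →
    (D.occurs X S ↔ D.meets X B f S) ∧ (StableLine f.ker S → D.occurs X S)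

/-- Q1 for varieties with an open part `U` fibred over `B`, `π_1(U_η)` almost commutative. -/
def AbelianCase : Prop :=
  ∀ X U B a f, D.opn U X a → D.con U B f → D.Known (D.dim B) → AlmostCommutative f.ker →
    D.Question X

end FibData

variable {D : FibData Λ}

/-- The criterion. -/
theorem criterion (ho : D.Open) (hp : D.Plain) (hs : D.Sheaves) (hf : D.Fibrations)
    (hsp : D.Spreading) {X B : D.Var} {f : D.Pi X →* D.Pi B} (hcon : D.con X B f)
    (hB : D.InDim (D.dim B)) {S : Rp Λ (D.Pi X)} (hS : D.Sheaf X S) (hm : D.meets X B f S) :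
    D.occurs X S := by
  obtain ⟨X', U, a, b, ha, hb, B', f', T, hf', hdim, hTp, hTo, u, hu0, hu⟩ :=
    hsp X B f hcon S hS hm
  obtain ⟨hS, hirr, hdet⟩ := hS
  refine ho.occurs X' X a ha S ?_
  have hS1 := ho.lisse X' X a ha S hS
  have hirr1 := irreducible_pull hirr (ho.surjective X' X a ha)
  have hpl := hs.plain_pull U X' b hb _ (hp.plain X' _ hS1 hirr1 (hdet.pull a))
  obtain ⟨S₁, p, h1, h2, h3, h4⟩ := exists_projection ((S.pull a).pull b)
    (hs.semisimple U X' b hb _ hirr1) u hu0
  have h5 : ∀ n ∈ f'.ker, ∀ t, (p ∘ₗ u) (T.r n t) = S₁.r n ((p ∘ₗ u) t) := by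
    intro n hn t
    exact (congrArg p (hu n hn t)).trans (h3 n (u t))
  obtain ⟨W, hW1, hW2, hW3⟩ := exists_factor (hf.surjective _ _ _ hf') T S₁ h1 (p ∘ₗ u) h4 h5
  have hWp : D.plain B' W := hf.plain _ _ _ hf' W
    (hs.plain_sub U _ _ hW2 (hs.plain_hom U T S₁ hTp (hs.plain_sub U _ _ h2 hpl)))
  obtain ⟨χ, W', hχ1, hχ2, hχ3, hχ4⟩ := hp.twist _ W hWp hW1
  have hW5 : D.occurs B' W := hp.occurs _ χ W W' hχ1 hχ2
    (hB B' hdim W' hχ3 (hχ2.irreducible hW1) hχ4)
  have hS₁ : D.occurs U S₁ := hs.quot U _ _ hW3 (hs.tensor U _ _ hTo (hf.occurs _ _ _ hf' W hW5))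
  refine hs.direct U X' b hb S₁ (S.pull a) hS₁ (pull_map S₁ p h3 ?_ hirr1)
  rintro rfl
  exact h4 (LinearMap.zero_comp u)

theorem affine_iff (ho : D.Open) (he : D.Etale) (hp : D.Plain) (hk : D.Kedlaya) (hs : D.Sheaves)
    (hf : D.Fibrations) (hsp : D.Spreading) {n r : ℕ} (hr : r ≤ n) (hB : D.InDim r) :
    D.InDim n ↔ D.Meets n r := by
  constructor
  · intro h S hS
    exact hf.meets _ _ _ (hf.projection n r hr) S hS
      (h _ (hf.dim_affine n) S hS.1 hS.2.1 hS.2.2)
  · intro h X hX
    refine reduction ho he hp hk X ?_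
    rw [hX]
    intro S hS hirr hdet
    exact criterion ho hp hs hf hsp (hf.projection n r hr)
      (fun B' hB' => hB B' (hB'.trans (hf.dim_affine r))) ⟨hS, hirr, hdet⟩ (h S ⟨hS, hirr, hdet⟩)

theorem lines (ho : D.Open) (he : D.Etale) (hp : D.Plain) (hk : D.Kedlaya) (hs : D.Sheaves)
    (hf : D.Fibrations) (hsp : D.Spreading) (hl : D.Lafforgue) (n : ℕ) :
    (∀ m ≤ n, D.InDim m) ↔ ∀ m, 1 ≤ m → m < n → D.Meets (m + 1) m := by
  constructor
  · intro h m _ hmn S hS
    exact hf.meets _ _ _ (hf.projection (m + 1) m (Nat.le_succ m)) S hS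
      (h (m + 1) hmn _ (hf.dim_affine _) S hS.1 hS.2.1 hS.2.2)
  · intro h d
    induction d with
    | zero => exact fun _ X hX => hl X (by omega)
    | succ m ih =>
      intro hd
      rcases Nat.eq_zero_or_pos m with rfl | hm
      · exact fun X hX => hl X (by omega)
      · exact (affine_iff ho he hp hk hs hf hsp (Nat.le_succ m) (ih (by omega))).2
          (h m hm (by omega))

/-- The main theorem. -/
theorem final [IsAlgClosed Λ] (ho : D.Open) (he : D.Etale) (hp : D.Plain) (hk : D.Kedlaya)
    (hj : D.Projections) (hs : D.Sheaves) (hf : D.Fibrations) (hsp : D.Spreading)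
    (hl : D.Lafforgue) :
    D.Criterion ∧ D.AbelianCase ∧ (∀ n, 1 ≤ n → (D.InDim n ↔ D.Meets n 1)) ∧
    ((∀ X, D.Question X) ↔ ∀ N, ∃ n, N ≤ n ∧ D.Meets n 1) ∧
    (∀ n, (∀ m ≤ n, D.InDim m) ↔ ∀ m, 1 ≤ m → m < n → D.Meets (m + 1) m) := by
  have h3 : ∀ n, 1 ≤ n → (D.InDim n ↔ D.Meets n 1) := fun n hn =>
    affine_iff ho he hp hk hs hf hsp hn fun B hB => hl B hB.le
  have h4 : D.Criterion := by
    intro X B f hc hB S hS
    have hB' : D.InDim (D.dim B) := by
      rcases hB with hB | hB
      · exact fun B' h => hl B' (h.le.trans hB)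
      · exact hB
    have h2 := criterion ho hp hs hf hsp hc hB' hS
    exact ⟨⟨hf.meets X B f hc S hS, h2⟩, fun h => h2 (hf.small X B f hc S hS h)⟩
  refine ⟨h4, ?_, h3, ⟨fun h N => ?_, fun h X => ?_⟩, lines ho he hp hk hs hf hsp hl⟩
  · rintro X U B a f ha hc hB ⟨N, hN1, hN2, hN3⟩ S hS hirr hdet
    have hirr' := irreducible_pull hirr (ho.surjective U X a ha)
    exact ho.occurs U X a ha S ((h4 U B f hc hB _ ⟨ho.lisse U X a ha S hS, hirr', hdet.pull a⟩).2
      ⟨N, hN1, hN2, exists_line _ hirr'.1 N hN3⟩)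
  · exact ⟨N + 1, Nat.le_succ N, (h3 _ (Nat.le_add_left 1 N)).1 fun X _ => h X⟩
  · obtain ⟨n, hn, h2⟩ := h (D.dim X + 1)
    refine reduction ho he hp hk X (descend' hj ((Nat.le_succ _).trans hn) ?_)
    exact (h3 n (by omega)).2 h2 _ (hf.dim_affine n)

end Pool.Agent.Q159.GF
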