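import Pool.Agent.Q56.GO.Flat
import Pool.Agent.Q159.GF.Fib

/-!
# Quasi-geometric flat bundles: the geometric generic fibre of a fibration
-/

set_option autoImplicit false

namespace Pool.Agent.Q159.GF

open Pool.Agent.Q187.FM Pool.Agent.Q56.GO

theorem irr_semisimple {Λ G : Type} [Field Λ] [Group G] {S : Rp Λ G} (h : S.Irreducible) :
    S.Semisimple := by
  intro A hA
  rcases h.2 A hA with rfl | rfl
  · exact ⟨⊤, fun _ _ _ => trivial, isCompl_bot_top⟩
  · refine ⟨⊥, fun g v hv => ?_, isCompl_top_bot⟩
    rw [Submodule.mem_bot] at hv ⊢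
    rw [hv, map_zero]

/-- The homomorphisms `T → R` of the restrictions of `T` and of `R` to the subgroup `K` form a vector
space of dimension one. -/
def OneMap {Λ G : Type} [Field Λ] [Group G] (K : Subgroup G) (T R : Rp Λ G) : Prop :=
  ∃ u : T.V →ₗ[Λ] R.V, u ≠ 0 ∧ ∀ w : T.V →ₗ[Λ] R.V,
    (∀ n ∈ K, ∀ t, w (T.r n t) = R.r n (w t)) ↔ ∃ c : Λ, w = c • u

/-- Spaces `Y` (the complements of normal crossing divisors in smooth proper Deligne-Mumford stacks
over the algebraic numbers) with fibrations. -/
structure FibSpaces (D : Spaces ℂ) where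
  /-- the homomorphism is induced by a fibration `f : Y → B`: a smooth surjective morphism, a locally
  trivial fibre bundle for the classical topology, with connected fibres. Its kernel is the image of
  the fundamental group of a fibre -/
  con : ∀ Y B, (D.Pi Y →* D.Pi B) → Prop
  /-- for a point `b ∈ B(ℂ)` which lies on no proper closed substack defined over the algebraic
  numbers, the restriction of the flat bundle to the fibre `Y_b` has an irreducible subquotient which
  is, on a dense open part of `Y_b`, a subquotient of a Gauss-Manin bundle -/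
  meets : ∀ Y B, (D.Pi Y →* D.Pi B) → Rp ℂ (D.Pi Y) → Prop
  /-- `f` is a fibration `U → B` as above, given by the projection
  `(t_1, …, t_(m+1)) ↦ (t_1, …, t_m)` from a nonempty open subscheme `U` of the affine space of
  dimension `m + 1` to a nonempty open subscheme `B` of the affine space of dimension `m` -/
  proj : ∀ U B, (D.Pi U →* D.Pi B) → Prop
  /-- the curve `P^1 - {0, 1, ∞}` -/
  line : D.Sp
  /-- the fibres of the fibration are projective lines without finitely many points, and the
  restriction of the bundle to a fibre has an irreducible constituent of multiplicity one which is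
  rigid (determined by its local monodromies) -/
  rigid : ∀ Y B, (D.Pi Y →* D.Pi B) → Rp ℂ (D.Pi Y) → Prop

namespace FibSpaces

variable {D : Spaces ℂ}

/-- Quasi-geometric bundles are stable under `Hom` and irreducible subbundles; geometric bundles are
stable under tensor products (Kuenneth), quotients, and subbundles of direct images under an etale
morphism with dense image (finite etale over a dense part). -/
structure Objects (D : Spaces ℂ) : Prop where
  qg_sub : ∀ Y (S T : Rp ℂ (D.Pi Y)), S.Irreducible → S.EmbedsIn T → D.qg Y T → D.qg Y S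
  qg_hom : ∀ Y (S T : Rp ℂ (D.Pi Y)), D.qg Y S → D.qg Y T → D.qg Y (S.hom T)
  tensor : ∀ Y (S T : Rp ℂ (D.Pi Y)), D.geo Y S → D.geo Y T → D.geo Y (S.tensor T)
  quot : ∀ Y (S T : Rp ℂ (D.Pi Y)), S.QuotientOf T → D.geo Y T → D.geo Y S
  direct : ∀ U Y a, D.cov U Y a → ∀ S T, D.geo U S → SubInduced a S T → D.geo Y T

variable (F : FibSpaces D)

/-- Fibrations `f : Y → B`: the fundamental group of `Y` maps onto that of `B`; an irreducible flat
bundle on `B` is quasi-geometric if its pull-back is (restrict to an etale multisection); pull-backs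
of geometric bundles are geometric; a geometric bundle is geometric on the fibres. -/
structure Fibrations : Prop where
  surjective : ∀ Y B f, F.con Y B f → Function.Surjective f
  qg : ∀ Y B f, F.con Y B f → ∀ S, S.Irreducible → D.qg Y (S.pull f) → D.qg B S
  geo : ∀ Y B f, F.con Y B f → ∀ S, D.geo B S → D.geo Y (S.pull f)
  meets : ∀ Y B f, F.con Y B f → ∀ S : Rp ℂ (D.Pi Y), S.Irreducible → D.geo Y S →
    F.meets Y B f S

/-- The bundle `R` on `U` has a nonzero homomorphism from a geometric (and quasi-geometric) bundle, on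
the fibres of a fibration `f : U → B` with `dim B = d`. -/
def Good (d : ℕ) (U : D.Sp) (R : Rp ℂ (D.Pi U)) : Prop :=
  ∃ (B : D.Sp) (f : D.Pi U →* D.Pi B) (T : Rp ℂ (D.Pi U)), F.con U B f ∧ D.dim B = d ∧
    D.qg U T ∧ D.geo U T ∧ MapsOn f.ker T R

/-- Spreading out. Let `S` be an irreducible quasi-geometric bundle on `Y`, `f : Y → B` a fibration,
and let an irreducible subquotient of the restriction of `S` to the fibre `Y_b` over a generic point
`b` be a subquotient of the Gauss-Manin bundle of a family over a dense open part of `Y_b`. The family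
extends to a family over a dense open part of `Y ×_B M`, `M → B` dominant, topologically locally
trivial over `M`, and `M` may be replaced by a subvariety which is etale over `B`. So there are
`a : U → Y` etale with dense image, a fibration `U → B'` with `dim B' = dim B` and a Gauss-Manin bundle
`T` on `U`, with a nonzero homomorphism from `T` to the restriction of `S` on the fibres. -/
def Spreading : Prop :=
  ∀ Y B f, F.con Y B f → ∀ S, D.qg Y S → S.Irreducible → F.meets Y B f S →
    ∃ (U : D.Sp) (a : D.Pi U →* D.Pi Y), D.cov U Y a ∧ F.Good (D.dim B) U (S.pull a)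

/-- Simpson: quasi-geometric flat bundles of rank one are of finite order, so geometric. Katz: let
the fibres of `f : Y → B` be projective lines without finitely many points and let the restriction of
an irreducible quasi-geometric `S` to the fibres have a rigid constituent `V` of multiplicity one (the
local monodromies are quasi-unipotent, by the theorem of Gelfond and Schneider); by the algorithm of
Katz, applied over an etale `B' → B`, there is a geometric bundle `T` on `U = Y ×_B B'` whose
restriction to the fibres is `V`. -/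
structure Rigidity : Prop where
  rank_one : ∀ B (S : Rp ℂ (D.Pi B)), D.qg B S → Module.finrank ℂ S.V = 1 → D.geo B S
  katz : ∀ Y B f, F.con Y B f → ∀ S, D.qg Y S → S.Irreducible → F.rigid Y B f S →
    ∃ (U B' : D.Sp) (a : D.Pi U →* D.Pi Y) (f' : D.Pi U →* D.Pi B') (T : Rp ℂ (D.Pi U)),
      D.cov U Y a ∧ F.con U B' f' ∧ D.qg U T ∧ D.geo U T ∧ OneMap f'.ker T (S.pull a)

/-- The question for all `Y` of dimension `n`. -/
def InDim (D : Spaces ℂ) (n : ℕ) : Prop := ∀ Y, D.dim Y = n → D.Question Y

/-- Dimension zero (finite groups); Belyi: every curve has a dense part which is finite etale over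
`P^1 - {0, 1, ∞}`; every `Y` of dimension `m + 1` has a dense part which is finite etale over a
nonempty open `U` in the affine space of dimension `m + 1`, and the projection of a smaller `U` is a
fibration. -/
structure Reductions : Prop where
  zero : InDim D 0
  dim_line : D.dim F.line = 1
  belyi : ∀ Y, D.dim Y = 1 → D.Over Y F.line
  proj_con : ∀ U B f, F.proj U B f → F.con U B f ∧ D.dim U = D.dim B + 1
  noether : ∀ m Y, D.dim Y = m + 1 → ∃ U B f, F.proj U B f ∧ D.dim B = m ∧ D.Over Y U

/-- For a projection `U → B`, `U` open in the affine space of dimension `m + 1`, `B` open in the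
affine space of dimension `m`, and every irreducible quasi-geometric bundle on `U`, an irreducible
constituent of the restriction to the fibre over a generic point, an open part of the affine line, is
geometric. -/
def Lines (m : ℕ) : Prop :=
  ∀ U B f, F.proj U B f → D.dim B = m → ∀ S, D.qg U S → S.Irreducible → F.meets U B f S

/-- The geometric generic fibre decides, for fibrations over `B` of a dimension where the answer to
the question is positive. -/
def Criterion : Prop :=
  ∀ Y B f, F.con Y B f → InDim D (D.dim B) → ∀ S, D.qg Y S → S.Irreducible →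
    (D.geo Y S ↔ F.meets Y B f S)

/-- Let `a : U → Y` be etale with dense image, `f : U → B` a fibration and `T` a geometric and
quasi-geometric bundle on `U`, such that on the fibres the homomorphisms from `T` to the restriction
of the irreducible quasi-geometric bundle `S` on `Y` form a space of dimension one. Then `S` is
geometric. -/
def MultiplicityOne : Prop :=
  ∀ Y U B a f, D.cov U Y a → F.con U B f → ∀ S T, D.qg U T → D.geo U T →
    OneMap f.ker T (S.pull a) → D.qg Y S → S.Irreducible → D.geo Y S

/-- Irreducible quasi-geometric bundles with a rigid constituent of multiplicity one on the fibres of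
a fibration by projective lines without finitely many points are geometric. -/
def RigidCase : Prop :=
  ∀ Y B f, F.con Y B f → ∀ S, D.qg Y S → S.Irreducible → F.rigid Y B f S → D.geo Y S

end FibSpaces

open FibSpaces

variable {D : Spaces ℂ} {F : FibSpaces D}

theorem flat_core (hc : D.Covers) (ho : Objects D) (hf : F.Fibrations) {Y U B : D.Sp}
    {a : D.Pi U →* D.Pi Y} {f : D.Pi U →* D.Pi B} {T : Rp ℂ (D.Pi U)} {S : Rp ℂ (D.Pi Y)}
    (ha : D.cov U Y a) (hcon : F.con U B f) (hTq : D.qg U T) (hTg : D.geo U T)
    (hm : MapsOn f.ker T (S.pull a)) (hS : D.qg Y S) (hirr : S.Irreducible)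
    (hW : ∀ (S₁ : Rp ℂ (D.Pi U)) (W : Rp ℂ (D.Pi B)), S₁.EmbedsIn (S.pull a) → W.Irreducible →
      (W.pull f).EmbedsIn (T.hom S₁) → D.qg B W → D.geo B W) : D.geo Y S := by
  obtain ⟨u, hu0, hu⟩ := hm
  obtain ⟨S₁, p, h1, h2, h3, h4⟩ := exists_projection (S.pull a)
    (hc.semisimple U Y a ha S (irr_semisimple hirr)) u hu0
  have h5 : ∀ n ∈ f.ker, ∀ t, (p ∘ₗ u) (T.r n t) = S₁.r n ((p ∘ₗ u) t) := by
    intro n hn t
    exact (congrArg p (hu n hn t)).trans (h3 n (u t))
  have hsurj := hf.surjective _ _ _ hcon
  obtain ⟨W, hW1, hW2, hW3⟩ := exists_factor hsurj T S₁ h1 (p ∘ₗ u) h4 h5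
  have hWq : D.qg B W := hf.qg _ _ _ hcon W hW1
    (ho.qg_sub U _ _ (irreducible_pull hW1 hsurj) hW2
      (ho.qg_hom U T S₁ hTq (ho.qg_sub U _ _ h1 h2 (hc.qg U Y a ha S hS))))
  have hWg : D.geo B W := hW S₁ W h2 hW1 hW2 hWq
  have hS₁ : D.geo U S₁ := ho.quot U _ _ hW3 (ho.tensor U _ _ hTg (hf.geo _ _ _ hcon W hWg))
  refine ho.direct U Y a ha S₁ S hS₁ (pull_map S₁ p h3 ?_ hirr)
  rintro rfl
  exact h4 (LinearMap.zero_comp u)

theorem OneMap.mapsOn {Λ G : Type} [Field Λ] [Group G] {K : Subgroup G} {T R : Rp Λ G}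
    (h : OneMap K T R) : MapsOn K T R := by
  obtain ⟨u, h0, h1⟩ := h
  exact ⟨u, h0, (h1 u).2 ⟨1, (one_smul _ _).symm⟩⟩

/-- If the homomorphisms `T → R` over the kernel of `f` form a space of dimension one, then the
representations `W` with `f^* W ⊂ Hom(T, S₁)`, `S₁ ⊂ R`, have dimension one. -/
theorem OneMap.finrank {Λ G H : Type} [Field Λ] [Group G] [Group H] {f : G →* H} {T R S₁ : Rp Λ G}
    (h : OneMap f.ker T R) (hS : S₁.EmbedsIn R) {W : Rp Λ H} (hW : W.Irreducible)
    (hE : (W.pull f).EmbedsIn (T.hom S₁)) : Module.finrank Λ W.V = 1 := by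
  obtain ⟨u, hu0, hu⟩ := h
  obtain ⟨e, he, he'⟩ := hS
  obtain ⟨φ, hφ, hφ'⟩ := hE
  let ψ : W.V →ₗ[Λ] (T.V →ₗ[Λ] S₁.V) := φ
  have hψ : Function.Injective ψ := hφ
  have hinv : ∀ n ∈ f.ker, ∀ w t, ψ w (T.r n t) = S₁.r n (ψ w t) := by
    intro n hn w t
    have k1 : ψ (W.r (f n) w) = (T.r.linHom S₁.r) n (ψ w) := hφ' n w
    rw [MonoidHom.mem_ker.1 hn, map_one, Module.End.one_apply, Representation.linHom_apply] at k1
    have k2 := LinearMap.congr_fun k1 (T.r n t)
    rw [LinearMap.comp_apply, LinearMap.comp_apply, ← Module.End.mul_apply (T.r n⁻¹), ← map_mul,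
      inv_mul_cancel, map_one, Module.End.one_apply] at k2
    exact k2
  have hc : ∀ w, ∃ c : Λ, e ∘ₗ ψ w = c • u := fun w => (hu _).1 fun n hn t =>
    (congrArg e (hinv n hn w t)).trans (he' n _)
  obtain ⟨w₀, hw₀⟩ := hW.1
  refine finrank_eq_one w₀ hw₀ fun w => ?_
  obtain ⟨c₀, h0⟩ := hc w₀
  obtain ⟨c, h1⟩ := hc w
  have hc0 : c₀ ≠ 0 := by
    rintro rfl
    apply hw₀
    apply hψ
    rw [map_zero]
    ext t
    apply he
    rw [zero_smul] at h0
    have := LinearMap.congr_fun h0 t
    rw [LinearMap.comp_apply, LinearMap.zero_apply] at this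
    rw [this, LinearMap.zero_apply, map_zero]
  refine ⟨c / c₀, ?_⟩
  apply hψ
  ext t
  apply he
  have k0 := LinearMap.congr_fun h0 t
  have k1 := LinearMap.congr_fun h1 t
  rw [LinearMap.comp_apply, LinearMap.smul_apply] at k0 k1
  rw [map_smul, LinearMap.smul_apply, map_smul, k0, k1, smul_smul, div_mul_cancel₀ _ hc0]

/-- The criterion. -/
theorem flat_criterion (hc : D.Covers) (ho : Objects D) (hf : F.Fibrations) (hsp : F.Spreading)
    {Y B : D.Sp} {f : D.Pi Y →* D.Pi B} (hcon : F.con Y B f) (hB : InDim D (D.dim B))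
    {S : Rp ℂ (D.Pi Y)} (hS : D.qg Y S) (hirr : S.Irreducible) (hm : F.meets Y B f S) :
    D.geo Y S := by
  obtain ⟨U, a, ha, B', f', T, hf', hdim, hTq, hTg, hu⟩ := hsp Y B f hcon S hS hirr hm
  exact flat_core hc ho hf ha hf' hTq hTg hu hS hirr fun _ W _ hW _ hWq =>
    hB B' hdim W hWq (irr_semisimple hW)

/-- Multiplicity one. -/
theorem flat_one (hc : D.Covers) (ho : Objects D) (hf : F.Fibrations) (hr : F.Rigidity)
    {Y U B : D.Sp} {a : D.Pi U →* D.Pi Y} {f : D.Pi U →* D.Pi B} {T : Rp ℂ (D.Pi U)}
    {S : Rp ℂ (D.Pi Y)} (ha : D.cov U Y a) (hcon : F.con U B f) (hTq : D.qg U T)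
    (hTg : D.geo U T) (hm : OneMap f.ker T (S.pull a)) (hS : D.qg Y S) (hirr : S.Irreducible) :
    D.geo Y S :=
  flat_core hc ho hf ha hcon hTq hTg hm.mapsOn hS hirr fun _ W hS₁ hW hE hWq =>
    hr.rank_one _ W hWq (hm.finrank hS₁ hW hE)

/-- The main theorem. -/
theorem flat_final (hs : D.Sums) (hc : D.Covers) (hfin : D.Finite) (ho : Objects D)
    (hf : F.Fibrations) (hsp : F.Spreading) (hk : F.Rigidity) (hr : F.Reductions) :
    F.RigidCase ∧ F.MultiplicityOne ∧ F.Criterion ∧
    (∀ m, InDim D m → (InDim D (m + 1) ↔ F.Lines m)) ∧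
    (∀ n, 1 ≤ n → ((∀ m ≤ n, InDim D m) ↔
      D.Irr F.line ∧ ∀ m, 1 ≤ m → m < n → F.Lines m)) := by
  have h1 : F.Criterion := fun Y B f hcon hB S hS hirr =>
    ⟨hf.meets Y B f hcon S hirr, flat_criterion hc ho hf hsp hcon hB hS hirr⟩
  have h2 : ∀ m, InDim D m → (InDim D (m + 1) ↔ F.Lines m) := by
    intro m hm
    constructor
    · intro h U B f hp hB S hS hirr
      obtain ⟨hcon, hdim⟩ := hr.proj_con U B f hp
      exact hf.meets U B f hcon S hirr (h U (by rw [hdim, hB]) S hS (irr_semisimple hirr))
    · intro h Y hY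
      obtain ⟨U, B, f, hp, hB, hover⟩ := hr.noether m Y hY
      refine question_of_over hs hc hfin hover fun S hS hirr => ?_
      exact flat_criterion hc ho hf hsp (hr.proj_con U B f hp).1 (hB.symm ▸ hm) hS hirr
        (h U B f hp hB S hS hirr)
  have h0 : F.MultiplicityOne := fun Y U B a f ha hcon S T hTq hTg hm hS hirr =>
    flat_one hc ho hf hk ha hcon hTq hTg hm hS hirr
  refine ⟨fun Y B f hcon S hS hirr hrig => ?_, h0, h1, h2,
    fun n hn => ⟨fun h => ⟨?_, ?_⟩, fun h d => ?_⟩⟩
  · obtain ⟨U, B', a, f', T, ha, hf', hTq, hTg, hm⟩ := hk.katz Y B f hcon S hS hirr hrig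
    exact flat_one hc ho hf hk ha hf' hTq hTg hm hS hirr
  · exact fun S hS hirr => h 1 hn F.line hr.dim_line S hS (irr_semisimple hirr)
  · exact fun m _ hmn => (h2 m (h m hmn.le)).1 (h (m + 1) hmn)
  · induction d with
    | zero => exact fun _ => hr.zero
    | succ m ih =>
      intro hd
      rcases Nat.eq_zero_or_pos m with rfl | hm
      · exact fun Y hY => question_of_over hs hc hfin (hr.belyi Y hY) h.1
      · exact (h2 m (ih (by omega))).2 (h.2 m hm (by omega))

end Pool.Agent.Q159.GF
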